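import Mathlib

/-!
Depth three (MP_381749_lc): numbers.
-/

set_option autoImplicit false

namespace Pool.Helper98.D3

/-- (N1) -/
theorem numOK (h q D w : ℕ) (hh : 2 ≤ h) (hq : 1 ≤ q) (hD : D ^ 4 ≤ h ^ (q ^ 2))
    (hw : w ^ 4 ≤ h ^ q) (b e : ℕ) (_hbe : 1 ≤ b + e) :
    ((h ^ q) ^ e) ^ 2 * h ^ b ≤ (h ^ (q + 1)) ^ b * (h ^ q) ^ e ∨
    ((h ^ (q + 1)) ^ b) ^ 2 * h ^ b ≤ (h ^ (q + 1)) ^ b * (h ^ q) ^ e ∨
    (D * w ^ b) ^ 2 * h ^ b ≤ (h ^ (q + 1)) ^ b * (h ^ q) ^ e := by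
  have h1 : 1 ≤ h := by omega
  have hR : (h ^ (q + 1)) ^ b * (h ^ q) ^ e = h ^ ((q + 1) * b + q * e) := by
    rw [← pow_mul, ← pow_mul, ← pow_add]
  rw [hR]
  rcases le_or_gt e b with hc | hc
  · left
    rw [← pow_mul, ← pow_mul, ← pow_add]
    refine Nat.pow_le_pow_right h1 ?_
    have := Nat.mul_le_mul_left q hc
    nlinarith
  · right
    rcases le_or_gt (2 * b) q with hc2 | hc2
    · left
      rw [← pow_mul, ← pow_mul, ← pow_add]
      refine Nat.pow_le_pow_right h1 ?_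
      have h3 : q * (b + 1) ≤ q * e := Nat.mul_le_mul_left q hc
      nlinarith
    · right
      have h2 : D ^ 2 * (w ^ b) ^ 2 ≤ h ^ (q * (b + e)) := by
        have h4 : (D ^ 2 * (w ^ b) ^ 2) ^ 2 ≤ (h ^ (q * (b + e))) ^ 2 := by
          calc (D ^ 2 * (w ^ b) ^ 2) ^ 2 = D ^ 4 * (w ^ 4) ^ b := by ring
            _ ≤ h ^ (q ^ 2) * (h ^ q) ^ b := Nat.mul_le_mul hD (Nat.pow_le_pow_left hw b)
            _ = h ^ (q ^ 2 + q * b) := by rw [← pow_mul, ← pow_add]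
            _ ≤ h ^ (q * (b + e) * 2) := by
                refine Nat.pow_le_pow_right h1 ?_
                have h5 : q + b ≤ (b + e) * 2 := by omega
                have := Nat.mul_le_mul_left q h5
                nlinarith
            _ = (h ^ (q * (b + e))) ^ 2 := by rw [pow_mul]
        exact (Nat.pow_le_pow_iff_left (by norm_num)).mp h4
      calc (D * w ^ b) ^ 2 * h ^ b = (D ^ 2 * (w ^ b) ^ 2) * h ^ b := by ring
        _ ≤ h ^ (q * (b + e)) * h ^ b := Nat.mul_le_mul_right _ h2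
        _ = h ^ ((q + 1) * b + q * e) := by rw [← pow_add]; congr 1; ring

/-- (N3) -/
theorem two_pow_le (r E T : ℕ) (hE : E ≤ 2 * r)
    (h : (2 ^ 20) ^ r ≤ (T * (4 ^ r * 3 ^ E) * (2 ^ E * 2 ^ r)) ^ 2) : 2 ^ r ≤ T := by
  have h1 : (T * (4 ^ r * 3 ^ E) * (2 ^ E * 2 ^ r)) ^ 2 ≤ T ^ 2 * 82944 ^ r := by
    calc (T * (4 ^ r * 3 ^ E) * (2 ^ E * 2 ^ r)) ^ 2 = T ^ 2 * (64 ^ r * 36 ^ E) := by
          rw [show (64 : ℕ) = 4 ^ 2 * 2 ^ 2 by norm_num, show (36 : ℕ) = 3 ^ 2 * 2 ^ 2 by norm_num]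
          rw [mul_pow (4 ^ 2), mul_pow (3 ^ 2), ← pow_mul, ← pow_mul, ← pow_mul, ← pow_mul]
          ring
      _ ≤ T ^ 2 * (64 ^ r * 36 ^ (2 * r)) := by
          refine Nat.mul_le_mul_left _ (Nat.mul_le_mul_left _ ?_)
          exact Nat.pow_le_pow_right (by norm_num) hE
      _ = T ^ 2 * 82944 ^ r := by
          rw [pow_mul, ← mul_pow]
          norm_num
  have h0 : 82944 ^ r * (2 ^ r) ^ 2 = (82944 * 4) ^ r := by
    rw [← pow_mul, mul_comm r 2, pow_mul, ← mul_pow, show (2 : ℕ) ^ 2 = 4 by norm_num]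
  have h2 : 82944 ^ r * (2 ^ r) ^ 2 ≤ 82944 ^ r * T ^ 2 := by
    rw [h0, mul_comm (82944 ^ r)]
    exact (Nat.pow_le_pow_left (by norm_num) r).trans (h.trans h1)
  have h3 : (2 ^ r) ^ 2 ≤ T ^ 2 := Nat.le_of_mul_le_mul_left h2 (by positivity)
  exact (Nat.pow_le_pow_iff_left (by norm_num)).mp h3

/-- (N2) -/
theorem final_num : ∃ C : ℝ, 0 < C ∧ ∀ n D w T : ℕ, 1 ≤ D → 1 ≤ w →
    (∀ q s : ℕ, 1 ≤ q → D ^ 4 ≤ (2 ^ 20) ^ (q ^ 2) → w ^ 4 ≤ (2 ^ 20) ^ q →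
      4 * s * (2 ^ 20) ^ q ≤ n → 2 ^ (q * s) ≤ T) →
    (n : ℝ) * Real.exp (-(C * Real.sqrt (Real.log D))) / (C * (w : ℝ) ^ 4) ≤
      Real.log (2 * T) := by
  refine ⟨2 ^ 64, by norm_num, ?_⟩
  intro n D w T hD hw hyp
  have hl2 : 0 < Real.log 2 := Real.log_pos (by norm_num)
  have hl2' : (1 : ℝ) / 2 ≤ Real.log 2 := by linarith [Real.log_two_gt_d9]
  have hl2'' : Real.log 2 ≤ 1 := by linarith [Real.log_two_lt_d9]
  have hD1 : (1 : ℝ) ≤ D := by exact_mod_cast hD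
  have hw1 : (1 : ℝ) ≤ w := by exact_mod_cast hw
  have hLD : 0 ≤ Real.log D := Real.log_nonneg hD1
  have hLw : 0 ≤ Real.log w := Real.log_nonneg hw1
  obtain ⟨x, hx⟩ : ∃ x : ℝ, x = Real.sqrt (Real.log D) := ⟨_, rfl⟩
  have hx0 : 0 ≤ x := by rw [hx]; exact Real.sqrt_nonneg _
  have hx2 : x ^ 2 = Real.log D := by rw [hx]; exact Real.sq_sqrt hLD
  obtain ⟨y, hy⟩ : ∃ y : ℝ, y = Real.log w / (5 * Real.log 2) := ⟨_, rfl⟩
  have hy0 : 0 ≤ y := by rw [hy]; positivity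
  -- the choice of `q`
  obtain ⟨q, hq⟩ : ∃ q : ℕ, q = ⌈x⌉₊ + ⌈y⌉₊ + 1 := ⟨_, rfl⟩
  have hqx : x ≤ q := by
    have := Nat.le_ceil x
    rw [hq]
    push_cast
    have h2 : (0 : ℝ) ≤ (⌈y⌉₊ : ℝ) := Nat.cast_nonneg _
    linarith
  have hqy : y ≤ q := by
    have := Nat.le_ceil y
    rw [hq]
    push_cast
    have h2 : (0 : ℝ) ≤ (⌈x⌉₊ : ℝ) := Nat.cast_nonneg _
    linarith
  have hq1 : 1 ≤ q := by omega
  have hqle : (q : ℝ) ≤ x + y + 3 := by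
    have h1 := (Nat.ceil_lt_add_one hx0).le
    have h2 := (Nat.ceil_lt_add_one hy0).le
    rw [hq]
    push_cast
    linarith
  have hA : D ^ 4 ≤ (2 ^ 20) ^ (q ^ 2) := by
    have h1 : ((D : ℝ)) ^ 4 ≤ (2 ^ 20) ^ (q ^ 2) := by
      rw [← Real.log_le_log_iff (by positivity) (by positivity), Real.log_pow, Real.log_pow,
        Real.log_pow]
      push_cast
      have h2 : Real.log D ≤ (q : ℝ) ^ 2 := by
        rw [← hx2]
        exact pow_le_pow_left₀ hx0 hqx 2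
      nlinarith [sq_nonneg (q : ℝ)]
    exact_mod_cast h1
  have hB : w ^ 4 ≤ (2 ^ 20) ^ q := by
    have h1 : ((w : ℝ)) ^ 4 ≤ (2 ^ 20) ^ q := by
      rw [← Real.log_le_log_iff (by positivity) (by positivity), Real.log_pow, Real.log_pow,
        Real.log_pow]
      push_cast
      have h2 : Real.log w = 5 * Real.log 2 * y := by rw [hy]; field_simp
      rw [h2]
      nlinarith
    exact_mod_cast h1
  obtain ⟨s, hs⟩ : ∃ s : ℕ, s = n / (4 * (2 ^ 20) ^ q) := ⟨_, rfl⟩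
  have hpos : 0 < 4 * (2 ^ 20) ^ q := by positivity
  have hsn : 4 * s * (2 ^ 20) ^ q ≤ n := by
    have := Nat.div_mul_le_self n (4 * (2 ^ 20) ^ q)
    rw [← hs] at this
    calc 4 * s * (2 ^ 20) ^ q = s * (4 * (2 ^ 20) ^ q) := by ring
      _ ≤ n := this
  have hT := hyp q s hq1 hA hB hsn
  have hns : n < (s + 1) * (4 * (2 ^ 20) ^ q) := by
    rw [hs, mul_comm]
    exact Nat.lt_mul_div_succ n hpos
  have hT2 : (s + 1 : ℝ) * Real.log 2 ≤ Real.log (2 * T) := by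
    have h1 : ((2 : ℝ)) ^ (s + 1) ≤ 2 * T := by
      have h2 : 2 ^ s ≤ T := (Nat.pow_le_pow_right (by norm_num)
        (Nat.le_mul_of_pos_left s hq1)).trans hT
      have h3 : 2 ^ (s + 1) ≤ 2 * T := by rw [pow_succ]; omega
      exact_mod_cast h3
    have h3 := Real.log_le_log (by positivity) h1
    rw [Real.log_pow] at h3
    push_cast at h3
    exact h3
  have hns' : (n : ℝ) ≤ (s + 1) * (4 * (2 ^ 20) ^ q) := by exact_mod_cast hns.le
  -- the size of `h ^ q`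
  have hhq : ((2 : ℝ) ^ 20) ^ q ≤ 2 ^ 60 * Real.exp (20 * x) * (w : ℝ) ^ 4 := by
    rw [← Real.log_le_log_iff (by positivity) (by positivity), Real.log_pow, Real.log_pow,
      Real.log_mul (by positivity) (by positivity), Real.log_mul (by positivity) (by positivity),
      Real.log_exp, Real.log_pow, Real.log_pow]
    push_cast
    have h2 : Real.log w = 5 * Real.log 2 * y := by rw [hy]; field_simp
    rw [h2]
    nlinarith
  have hE : Real.exp (-(2 ^ 64 * x)) ≤ Real.exp (-(20 * x)) := by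
    apply Real.exp_le_exp.mpr
    nlinarith
  have hee : Real.exp (20 * x) * Real.exp (-(20 * x)) = 1 := by
    rw [← Real.exp_add]
    simp
  have hw4 : (0 : ℝ) < (w : ℝ) ^ 4 := by positivity
  rw [← hx, div_le_iff₀ (by positivity)]
  have hs0 : (0 : ℝ) ≤ (s : ℝ) + 1 := by positivity
  calc (n : ℝ) * Real.exp (-(2 ^ 64 * x)) ≤
      ((s + 1) * (4 * (2 ^ 60 * Real.exp (20 * x) * (w : ℝ) ^ 4))) * Real.exp (-(20 * x)) := by
        refine mul_le_mul (hns'.trans ?_) hE (Real.exp_pos _).le (by positivity)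
        refine mul_le_mul_of_nonneg_left ?_ hs0
        exact mul_le_mul_of_nonneg_left hhq (by norm_num)
    _ = (s + 1) * (2 ^ 62 * (w : ℝ) ^ 4) * (Real.exp (20 * x) * Real.exp (-(20 * x))) := by ring
    _ = (s + 1) * (2 ^ 62 * (w : ℝ) ^ 4) := by rw [hee, mul_one]
    _ ≤ ((s + 1) * Real.log 2) * (2 ^ 64 * (w : ℝ) ^ 4) := by
        have h1 : (2 : ℝ) ^ 62 * (w : ℝ) ^ 4 ≤ Real.log 2 * (2 ^ 64 * (w : ℝ) ^ 4) := by
          nlinarith
        calc (s + 1 : ℝ) * (2 ^ 62 * (w : ℝ) ^ 4) ≤ (s + 1) * (Real.log 2 * (2 ^ 64 * (w : ℝ) ^ 4)) :=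
              mul_le_mul_of_nonneg_left h1 hs0
          _ = _ := by ring
    _ ≤ Real.log (2 * T) * (2 ^ 64 * (w : ℝ) ^ 4) :=
        mul_le_mul_of_nonneg_right hT2 (by positivity)

end Pool.Helper98.D3
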